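import Mathlib
import Pool.Agent.Y372.UF.Stm

/-!
Project UF (MP_54ecb1_an): four arcs in half planes.
-/

set_option autoImplicit false

namespace Pool.Agent.Y469.UF

open Pool.Agent.Y372.UF

theorem cos_pos_len (A B : ℝ) (h : ∀ x ∈ Set.Icc A B, 0 ≤ Real.cos x) : B - A ≤ Real.pi := by
  by_contra hcon
  push Not at hcon
  have hpi := Real.pi_pos
  set δ := min (B - A - Real.pi) 1 with hδ
  have h0 : 0 < δ := lt_min (by linarith) one_pos
  have h1 : δ ≤ B - A - Real.pi := min_le_left _ _
  have h2 : δ ≤ 1 := min_le_right _ _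
  have e : ∀ x, A ≤ x → x ≤ A + δ → Real.cos x = 0 := by
    intro x hx1 hx2
    have a1 := h x ⟨hx1, by linarith⟩
    have a2 := h (x + Real.pi) ⟨by linarith, by linarith⟩
    rw [Real.cos_add_pi] at a2
    linarith
  have e1 := e A le_rfl (by linarith)
  have e2 := e (A + δ) (by linarith) le_rfl
  rw [Real.cos_add, e1, zero_mul, zero_sub, neg_eq_zero] at e2
  have hs : 0 < Real.sin δ := Real.sin_pos_of_pos_of_lt_pi h0 (by linarith [Real.pi_gt_three])
  rcases mul_eq_zero.1 e2 with h3 | h3
  · have := Real.sin_sq_add_cos_sq A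
    rw [h3, e1] at this
    norm_num at this
  · exact hs.ne' h3

theorem cos_neg_len (A B : ℝ) (h : ∀ x ∈ Set.Icc A B, Real.cos x ≤ 0) : B - A ≤ Real.pi := by
  have := cos_pos_len (A + Real.pi) (B + Real.pi) (fun x hx => by
    have h1 := h (x - Real.pi) ⟨by linarith [hx.1], by linarith [hx.2]⟩
    rw [Real.cos_sub_pi] at h1
    linarith)
  linarith

theorem sin_neg_len (A B : ℝ) (h : ∀ x ∈ Set.Icc A B, Real.sin x < 0) : B - A < Real.pi := by
  by_contra hcon
  push Not at hcon
  have hpi := Real.pi_pos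
  have a1 := h A ⟨le_rfl, by linarith⟩
  have a2 := h (A + Real.pi) ⟨by linarith, by linarith⟩
  rw [Real.sin_add_pi] at a2
  linarith

/-- transfer to a continuous function -/
theorem along {α : ℝ → ℝ} (hα : Continuous α) {r t : ℝ} (hrt : r ≤ t) {P : ℝ → Prop}
    (h : ∀ s ∈ Set.Icc r t, P (α s)) : ∀ x ∈ Set.Icc (α r) (α t), P x := by
  intro x hx
  obtain ⟨s, hs, rfl⟩ := intermediate_value_Icc hrt hα.continuousOn hx
  exact h s hs

theorem t_ARC : S_ARC := by
  intro u α a hu hα h1 h2 h3 h4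
  have hpi := Real.pi_pos
  have p1 : α 0 - α (-Real.pi) < Real.pi :=
    sin_neg_len _ _ (along hα (by linarith) (P := fun x => Real.sin x < 0) h1)
  set S : Set ℝ := {t | t ∈ Set.Icc 0 Real.pi ∧ u t < a} with hS
  by_cases hne : S.Nonempty
  swap
  · rw [Set.not_nonempty_iff_eq_empty] at hne
    have p2 : α Real.pi - α 0 ≤ Real.pi := by
      refine cos_pos_len _ _ (along hα hpi.le (P := fun x => 0 ≤ Real.cos x) fun s hs => ?_)
      refine h2 s hs ?_
      by_contra hc
      have : s ∈ S := ⟨hs, not_le.1 hc⟩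
      rw [hne] at this
      exact this
    linarith
  have hbb : BddBelow S := ⟨0, fun t ht => ht.1.1⟩
  have hba : BddAbove S := ⟨Real.pi, fun t ht => ht.1.2⟩
  set r := sInf S with hr
  set s := sSup S with hs
  have hr0 : 0 ≤ r := le_csInf hne fun t ht => ht.1.1
  have hsp : s ≤ Real.pi := csSup_le hne fun t ht => ht.1.2
  have hrs : r ≤ s := csInf_le_csSup hne hbb hba
  -- first arc
  have q1 : α r - α 0 ≤ Real.pi := by
    rcases hr0.eq_or_lt with h | h
    · rw [← h]; linarith
    refine cos_pos_len _ _ (along hα hr0 (P := fun x => 0 ≤ Real.cos x) fun t ht => ?_)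
    refine h2 t ⟨ht.1, by linarith [ht.2]⟩ ?_
    have hcl : IsClosed {t | a ≤ u t} := isClosed_le continuous_const hu
    have hsub : Set.Ico 0 r ⊆ {t | a ≤ u t} := by
      intro t ht
      by_contra hc
      have : t ∈ S := ⟨⟨ht.1, by linarith [ht.2]⟩, not_le.1 hc⟩
      exact absurd (csInf_le hbb this) (not_le.2 ht.2)
    have := hcl.closure_subset_iff.2 hsub
    rw [closure_Ico h.ne] at this
    exact this ht
  have q3 : α Real.pi - α s ≤ Real.pi := by
    rcases hsp.eq_or_lt with h | h
    · rw [h]; linarith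
    refine cos_pos_len _ _ (along hα hsp (P := fun x => 0 ≤ Real.cos x) fun t ht => ?_)
    refine h2 t ⟨by linarith [ht.1], ht.2⟩ ?_
    have hcl : IsClosed {t | a ≤ u t} := isClosed_le continuous_const hu
    have hsub : Set.Ioc s Real.pi ⊆ {t | a ≤ u t} := by
      intro t ht
      by_contra hc
      have : t ∈ S := ⟨⟨by linarith [ht.1], ht.2⟩, not_le.1 hc⟩
      exact absurd (le_csSup hba this) (not_le.2 ht.1)
    have := hcl.closure_subset_iff.2 hsub
    rw [closure_Ioc h.ne] at this
    exact this ht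
  have q2 : α s - α r ≤ Real.pi := by
    rcases hrs.eq_or_lt with h | h
    · rw [h]; linarith
    refine cos_neg_len _ _ (along hα hrs (P := fun x => Real.cos x ≤ 0) fun t ht => ?_)
    refine h3 t ⟨by linarith [ht.1], by linarith [ht.2]⟩ ?_
    have hcl : IsClosed {t | u t ≤ a} := isClosed_le hu continuous_const
    have hsub : Set.Ioo r s ⊆ {t | u t ≤ a} := by
      intro t ht
      obtain ⟨t1, ht1, ht1'⟩ := exists_lt_of_csInf_lt hne ht.1
      obtain ⟨t2, ht2, ht2'⟩ := exists_lt_of_lt_csSup hne ht.2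
      exact le_trans (h4 t1 t t2 ht1.1.1 ht1'.le ht2'.le ht2.1.2)
        (max_le ht1.2.le ht2.2.le)
    have := hcl.closure_subset_iff.2 hsub
    rw [closure_Ioo h.ne] at this
    exact this ht
  linarith

end Pool.Agent.Y469.UF
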