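import Mathlib
import Pool.Agent.Y372.UF.Stm

/-!
Project UF (MP_54ecb1_an): an explicit trigonometric inequality.
-/

set_option autoImplicit false

namespace Pool.Agent.Y469.UF

open Pool.Agent.Y372.UF

theorem abs_sin_nat (n : ℕ) (t : ℝ) : |Real.sin ((n : ℝ) * t)| ≤ n * |Real.sin t| := by
  induction n with
  | zero => simp
  | succ n ih =>
    have h1 : Real.sin (((n + 1 : ℕ) : ℝ) * t)
        = Real.sin (n * t) * Real.cos t + Real.cos (n * t) * Real.sin t := by
      rw [← Real.sin_add]; push_cast; ring_nf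
    rw [h1]
    have h2 : |Real.sin (n * t) * Real.cos t| ≤ |Real.sin (n * t)| := by
      rw [abs_mul]
      exact mul_le_of_le_one_right (abs_nonneg _) (Real.abs_cos_le_one _)
    have h3 : |Real.cos (n * t) * Real.sin t| ≤ |Real.sin t| := by
      rw [abs_mul]
      exact mul_le_of_le_one_left (abs_nonneg _) (Real.abs_cos_le_one _)
    have h4 := abs_add_le (Real.sin (n * t) * Real.cos t) (Real.cos (n * t) * Real.sin t)
    push_cast
    linarith

theorem t_TRIG : S_TRIG := by
  intro M hM t ht1 ht2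
  set p : ℝ := ph M with hp
  have hpi := Real.pi_pos
  have hM' : (4 : ℝ) ≤ M := by exact_mod_cast hM
  have hM0 : (0 : ℝ) < M := by linarith
  have hpM : (M : ℝ) * p = Real.pi := by
    rw [hp, ph]; field_simp
  have hp0 : 0 < p := by rw [hp, ph]; positivity
  have h4p : 4 * p ≤ Real.pi := by nlinarith
  set s0 := Real.sin p with hs0
  have hs0p : 0 < s0 := Real.sin_pos_of_pos_of_lt_pi hp0 (by linarith)
  have hσ : 0 < Real.sin t := Real.sin_pos_of_pos_of_lt_pi (by linarith) ht2
  -- q
  have hq1 : Real.sin (t / 2) ^ 2 - s0 ^ 2 = Real.sin (t / 2 - p) * Real.sin (t / 2 + p) := by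
    rw [Real.sin_sub, Real.sin_add]
    have e1 := Real.sin_sq_add_cos_sq (t / 2)
    have e2 := Real.sin_sq_add_cos_sq p
    rw [← hs0] at e2 ⊢
    linear_combination Real.sin (t / 2) ^ 2 * (-e2) + s0 ^ 2 * e1
  have ha : 0 < Real.sin (t / 2 - p) :=
    Real.sin_pos_of_pos_of_lt_pi (by linarith) (by linarith)
  have hb : 0 < Real.sin (t / 2 + p) :=
    Real.sin_pos_of_pos_of_lt_pi (by linarith) (by linarith)
  set q := Real.sin (t / 2) ^ 2 - s0 ^ 2 with hq
  have hq0 : 0 < q := by rw [hq1]; exact mul_pos ha hb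
  -- right side at least q
  have hR : q ≤ Real.sin (t / 2) ^ 2 + s0 ^ 2 * Real.cos (M * t) := by
    have := Real.neg_one_le_cos (M * t)
    nlinarith [sq_nonneg s0]
  refine le_trans ?_ hR
  rcases le_or_gt (Real.sin (M * t)) 0 with hD | hD
  · refine le_trans ?_ hq0.le
    refine mul_nonpos_of_nonneg_of_nonpos ?_ hD
    positivity
  -- t > 4 p
  have ht4 : 4 * p < t := by
    by_contra hc
    push Not at hc
    have e1 : Real.sin (M * t) = Real.sin (M * t - 2 * Real.pi - 2 * Real.pi) := by
      rw [Real.sin_sub_two_pi, Real.sin_sub_two_pi]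
    have e2 : Real.sin (M * t - 2 * Real.pi - 2 * Real.pi) ≤ 0 := by
      apply Real.sin_nonpos_of_nonpos_of_neg_pi_le
      · nlinarith
      · nlinarith
    linarith
  have hM5 : 5 ≤ M := by
    by_contra hc
    have : M = 4 := by omega
    rw [this] at hpM
    push_cast at hpM
    linarith
  have hM5' : (5 : ℝ) ≤ M := by exact_mod_cast hM5
  have h5p : 5 * p ≤ Real.pi := by nlinarith
  set S3 := Real.sin (3 * p) with hS3
  have hS3p : 0 < S3 := Real.sin_pos_of_pos_of_lt_pi (by linarith) (by linarith)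
  -- q ≥ s0 S3
  have hqS : s0 * S3 ≤ q := by
    have e1 : Real.sin (2 * p) ≤ Real.sin (t / 2) :=
      Real.sin_le_sin_of_le_of_le_pi_div_two (by linarith) (by linarith) (by linarith)
    have e2 : 0 < Real.sin (2 * p) := Real.sin_pos_of_pos_of_lt_pi (by linarith) (by linarith)
    have e3 : s0 * S3 = Real.sin (2 * p) ^ 2 - s0 ^ 2 := by
      rw [hS3, Real.sin_three_mul, Real.sin_two_mul]
      have e2 := Real.sin_sq_add_cos_sq p
      have e4 : Real.cos p ^ 2 = 1 - Real.sin p ^ 2 := by linarith
      rw [mul_pow, mul_pow, e4, ← hs0]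
      ring
    rw [e3, hq]
    nlinarith
  -- comparison of σ / q
  have hcmp : Real.sin t * (s0 * S3) ≤ Real.sin (4 * p) * q := by
    have e1 : Real.sin (4 * p) * (Real.sin (t / 2 - p) * Real.sin (t / 2 + p))
        - Real.sin t * (s0 * S3)
        = Real.sin (t / 2 - p - p) * Real.sin (t / 2 + p) * S3
          + Real.sin (t / 2 + p - 3 * p) * Real.sin (t / 2 - p) * s0 := by
      have f1 : Real.sin (4 * p) = Real.sin (p + 3 * p) := by ring_nf
      have f2 : Real.sin t = Real.sin ((t / 2 - p) + (t / 2 + p)) := by ring_nf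
      rw [f1, f2, Real.sin_add p, Real.sin_add (t / 2 - p), Real.sin_sub (t / 2 - p) p,
        Real.sin_sub (t / 2 + p) (3 * p), ← hs0, ← hS3]
      ring
    have e2 : 0 ≤ Real.sin (t / 2 - p - p) :=
      Real.sin_nonneg_of_nonneg_of_le_pi (by linarith) (by linarith)
    have e3 : 0 ≤ Real.sin (t / 2 + p - 3 * p) :=
      Real.sin_nonneg_of_nonneg_of_le_pi (by linarith) (by linarith)
    rw [hq1]
    have e4 : 0 ≤ Real.sin (t / 2 - p - p) * Real.sin (t / 2 + p) * S3
          + Real.sin (t / 2 + p - 3 * p) * Real.sin (t / 2 - p) * s0 := by positivity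
    linarith
  -- the numerical inequality
  have hc2 : 0 < Real.cos (2 * p) :=
    Real.cos_pos_of_mem_Ioo ⟨by linarith, by linarith⟩
  have hnum : 2 * Real.cos p ≤ M * S3 := by
    have e0 := Real.cos_le_one p
    have e1 : 2 ≤ M * S3 := by
      rcases Nat.lt_or_ge M 6 with h | h
      · have hM5e : M = 5 := by omega
        have hp5 : p = Real.pi / 5 := by rw [hp, ph, hM5e]; norm_num
        have e2 : S3 = Real.sin (2 * Real.pi / 5) := by
          rw [hS3, hp5, ← Real.sin_pi_sub]
          congr 1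
          ring
        have e3 := Real.mul_le_sin (x := 2 * Real.pi / 5) (by linarith) (by linarith)
        have e4 : 2 / Real.pi * (2 * Real.pi / 5) = 4 / 5 := by field_simp; norm_num
        rw [e4, ← e2] at e3
        rw [hM5e]
        push_cast
        linarith
      · have h6 : (6 : ℝ) ≤ M := by exact_mod_cast h
        have h6p : 6 * p ≤ Real.pi := by nlinarith
        have e3 := Real.mul_le_sin (x := 3 * p) (by linarith) (by linarith)
        rw [← hS3] at e3
        have e4 : (M : ℝ) * (2 / Real.pi * (3 * p)) = 6 := by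
          have : (M : ℝ) * (2 / Real.pi * (3 * p)) = 6 * (M * p) / Real.pi := by ring
          rw [this, hpM]
          field_simp
        have e5 := mul_le_mul_of_nonneg_left e3 hM0.le
        rw [e4] at e5
        linarith
    linarith
  -- sin 4p <= M S3 (S3 - s0)
  have hs4 : Real.sin (4 * p) * s0 ≤ (M * S3) * ((S3 - s0) * s0) := by
    have e1 : Real.sin (4 * p) = 4 * s0 * Real.cos p * Real.cos (2 * p) := by
      rw [show 4 * p = 2 * (2 * p) by ring, Real.sin_two_mul, Real.sin_two_mul]
      ring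
    have e2 : S3 - s0 = 2 * Real.cos (2 * p) * s0 := by
      rw [hS3, Real.sin_three_mul, Real.cos_two_mul, ← hs0]
      have e3 := Real.sin_sq_add_cos_sq p
      have e4 : Real.cos p ^ 2 = 1 - s0 ^ 2 := by rw [← hs0] at e3; linarith
      rw [e4]
      ring
    rw [e1, e2]
    have e5 : 4 * s0 * Real.cos p * Real.cos (2 * p) * s0
        = (2 * Real.cos p) * (2 * Real.cos (2 * p) * s0 ^ 2) := by ring
    have e6 : (M : ℝ) * S3 * (2 * Real.cos (2 * p) * s0 * s0)
        = (M * S3) * (2 * Real.cos (2 * p) * s0 ^ 2) := by ring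
    rw [e5, e6]
    exact mul_le_mul_of_nonneg_right hnum (by positivity)
  -- first term
  have hDM : Real.sin (M * t) ≤ M * Real.sin t := by
    have := abs_sin_nat M t
    rw [abs_of_pos hσ] at this
    exact le_trans (le_abs_self _) this
  have hD1 : Real.sin (M * t) ≤ 1 := Real.sin_le_one _
  have t1 : s0 ^ 2 / M * (1 / Real.sin t) * Real.sin (M * t) ≤ s0 ^ 2 := by
    have e1 : s0 ^ 2 / M * (1 / Real.sin t) * Real.sin (M * t)
        = s0 ^ 2 * (Real.sin (M * t) / (M * Real.sin t)) := by
      field_simp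
    rw [e1]
    have e2 : Real.sin (M * t) / (M * Real.sin t) ≤ 1 := by
      rw [div_le_one (by positivity)]
      exact hDM
    exact mul_le_of_le_one_right (by positivity) e2
  have t2 : s0 ^ 2 / M * (Real.sin t / q) * Real.sin (M * t) ≤ s0 * S3 - s0 ^ 2 := by
    have e1 : s0 ^ 2 / M * (Real.sin t / q) * Real.sin (M * t)
        ≤ s0 ^ 2 / M * (Real.sin t / q) * 1 :=
      mul_le_mul_of_nonneg_left hD1 (by positivity)
    refine le_trans e1 ?_
    have e2 : Real.sin t / q ≤ Real.sin (4 * p) / (s0 * S3) := by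
      rw [div_le_div_iff₀ hq0 (by positivity)]
      exact hcmp
    have e3 : s0 ^ 2 / M * (Real.sin t / q) * 1 ≤ s0 ^ 2 / M * (Real.sin (4 * p) / (s0 * S3)) := by
      rw [mul_one]
      exact mul_le_mul_of_nonneg_left e2 (by positivity)
    refine le_trans e3 ?_
    have e4 : s0 ^ 2 / M * (Real.sin (4 * p) / (s0 * S3)) = (Real.sin (4 * p) * s0) / (M * S3) := by
      field_simp
    rw [e4, div_le_iff₀ (by positivity)]
    refine le_trans hs4 (le_of_eq ?_)
    ring
  have e : s0 ^ 2 / (M : ℝ) * (1 / Real.sin t + Real.sin t / q) * Real.sin (M * t)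
      = s0 ^ 2 / M * (1 / Real.sin t) * Real.sin (M * t)
        + s0 ^ 2 / M * (Real.sin t / q) * Real.sin (M * t) := by ring
  rw [e]
  linarith

end Pool.Agent.Y469.UF
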