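import Mathlib
import Pool.Agent.Y372.UF.Stm

/-!
Project UF (MP_54ecb1_an): inheritance of one change of sign, from negative to positive.
-/

set_option autoImplicit false

open Polynomial

namespace Pool.Agent.Y469.UF

open Pool.Agent.Y372.UF

theorem mvt (p : ℝ[X]) {a b : ℝ} (hab : a < b) :
    ∃ ξ, a < ξ ∧ ξ < b ∧ p.derivative.eval ξ = (p.eval b - p.eval a) / (b - a) := by
  obtain ⟨ξ, hξ, h⟩ := exists_hasDerivAt_eq_slope (fun x => p.eval x)
    (fun x => p.derivative.eval x) hab p.continuous.continuousOn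
    (fun x _ => p.hasDerivAt x)
  exact ⟨ξ, hξ.1, hξ.2, h⟩

theorem mvt_pos (p : ℝ[X]) {a b : ℝ} (hab : a < b) (h : p.eval a < p.eval b) :
    ∃ ξ, a < ξ ∧ ξ < b ∧ 0 < p.derivative.eval ξ := by
  obtain ⟨ξ, h1, h2, h3⟩ := mvt p hab
  exact ⟨ξ, h1, h2, by rw [h3]; exact div_pos (by linarith) (by linarith)⟩

theorem mvt_neg (p : ℝ[X]) {a b : ℝ} (hab : a < b) (h : p.eval b < p.eval a) :
    ∃ ξ, a < ξ ∧ ξ < b ∧ p.derivative.eval ξ < 0 := by
  obtain ⟨ξ, h1, h2, h3⟩ := mvt p hab
  exact ⟨ξ, h1, h2, by rw [h3]; exact div_neg_of_neg_of_pos (by linarith) (by linarith)⟩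

theorem t_INH : S_INH := by
  intro v P κ c b hκ hbc hc1 hK hP
  set K : ℝ[X] := (X - C c) ^ 3 * v with hKd
  have K0 : K.eval c = 0 := by rw [hKd]; simp
  have K1 : K.derivative.eval c = 0 := by rw [hKd]; simp [derivative_mul, derivative_pow]
  have K2 : ∀ x, K.derivative.derivative.eval x = κ * (x - c) * P.eval x := by
    intro x
    have : K.derivative.derivative = C κ * (X - C c) * P := hK
    rw [this]
    simp
  have Kx : ∀ x, K.eval x = (x - c) ^ 3 * v.eval x := by
    intro x; rw [hKd]; simp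
  -- signs of P
  have sp : ∀ η, (η - c) * K.derivative.derivative.eval η > 0 → 0 < P.eval η := by
    intro η h
    rw [K2] at h
    by_contra hn
    push Not at hn
    have : (η - c) * (κ * (η - c) * P.eval η) = (κ * (η - c) ^ 2) * P.eval η := by ring
    rw [this] at h
    have h2 : 0 ≤ κ * (η - c) ^ 2 := by positivity
    nlinarith
  have sn : ∀ η, (η - c) * K.derivative.derivative.eval η < 0 → P.eval η < 0 := by
    intro η h
    rw [K2] at h
    by_contra hn
    push Not at hn
    have : (η - c) * (κ * (η - c) * P.eval η) = (κ * (η - c) ^ 2) * P.eval η := by ring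
    rw [this] at h
    have h2 : 0 ≤ κ * (η - c) ^ 2 := by positivity
    nlinarith
  have fin : ∀ η1 η2, b ≤ η1 → η1 < η2 → η2 ≤ 1 → 0 < P.eval η1 → P.eval η2 < 0 → False :=
    fun η1 η2 h1 h2 h3 h4 h5 => absurd (hP η1 η2 h1 h2 h3 h4) (not_le.2 h5)
  have key : ∀ x y : ℝ, b ≤ x → x < y → y ≤ 1 → x ≠ c → y ≠ c → 0 < v.eval x →
      v.eval y < 0 → False := by
    intro x y hx hxy hy hxc hyc vx vy
    rcases lt_or_gt_of_ne hxc with hxc | hxc
    · have kx : K.eval x < 0 := by
        rw [Kx]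
        exact mul_neg_of_neg_of_pos (Odd.pow_neg (by decide) (by linarith)) vx
      rcases lt_or_gt_of_ne hyc with hyc | hyc
      · have ky : 0 < K.eval y := by
          rw [Kx]
          exact mul_pos_of_neg_of_neg (Odd.pow_neg (by decide) (by linarith)) vy
        obtain ⟨ξ1, a1, a2, a3⟩ := mvt_pos K hxy (by linarith)
        obtain ⟨ξ2, b1, b2, b3⟩ := mvt_neg K hyc (by linarith)
        obtain ⟨η1, c1, c2, c3⟩ := mvt_neg K.derivative (show ξ1 < ξ2 by linarith) (by linarith)
        obtain ⟨η2, d1, d2, d3⟩ := mvt_pos K.derivative (show ξ2 < c by linarith) (by linarith)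
        exact fin η1 η2 (by linarith) (by linarith) (by linarith)
          (sp η1 (mul_pos_of_neg_of_neg (by linarith) c3))
          (sn η2 (mul_neg_of_neg_of_pos (by linarith) d3))
      · have ky : K.eval y < 0 := by
          rw [Kx]
          exact mul_neg_of_pos_of_neg (pow_pos (by linarith) 3) vy
        obtain ⟨ξ1, a1, a2, a3⟩ := mvt_pos K hxc (by linarith)
        obtain ⟨ξ2, b1, b2, b3⟩ := mvt_neg K hyc (by linarith)
        obtain ⟨η1, c1, c2, c3⟩ := mvt_neg K.derivative (show ξ1 < c by linarith) (by linarith)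
        obtain ⟨η2, d1, d2, d3⟩ := mvt_neg K.derivative (show c < ξ2 by linarith) (by linarith)
        exact fin η1 η2 (by linarith) (by linarith) (by linarith)
          (sp η1 (mul_pos_of_neg_of_neg (by linarith) c3))
          (sn η2 (mul_neg_of_pos_of_neg (by linarith) d3))
    · have kx : 0 < K.eval x := by
        rw [Kx]
        exact mul_pos (pow_pos (by linarith) 3) vx
      have ky : K.eval y < 0 := by
        rw [Kx]
        exact mul_neg_of_pos_of_neg (pow_pos (by linarith) 3) vy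
      obtain ⟨ξ1, a1, a2, a3⟩ := mvt_pos K hxc (by linarith)
      obtain ⟨η1, c1, c2, c3⟩ := mvt_pos K.derivative (show c < ξ1 by linarith) (by linarith)
      obtain ⟨ξ2, b1, b2, b3⟩ := mvt_neg K hxy (by linarith)
      obtain ⟨η2, d1, d2, d3⟩ := mvt_neg K.derivative (show ξ1 < ξ2 by linarith) (by linarith)
      exact fin η1 η2 (by linarith) (by linarith) (by linarith)
        (sp η1 (mul_pos (by linarith) c3))
        (sn η2 (mul_neg_of_pos_of_neg (by linarith) d3))
  intro x y hx hxy hy vx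
  by_contra hvy
  push Not at hvy
  by_cases hxc : x = c
  · -- move x to the right
    have h1 : ∀ᶠ z in nhdsWithin x (Set.Ioi x), 0 < v.eval z :=
      nhdsWithin_le_nhds (v.continuous.continuousAt.eventually_const_lt vx)
    have h2 : ∀ᶠ z in nhdsWithin x (Set.Ioi x), z ∈ Set.Ioo x y := Ioo_mem_nhdsGT hxy
    obtain ⟨z, hz1, hz2⟩ := (h1.and h2).exists
    exact key z y (by linarith [hz2.1]) hz2.2 hy (by rw [← hxc]; exact hz2.1.ne')
      (by rw [← hxc]; exact hxy.ne') hz1 hvy
  · by_cases hyc : y = c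
    · have h1 : ∀ᶠ z in nhdsWithin y (Set.Iio y), v.eval z < 0 :=
        nhdsWithin_le_nhds (v.continuous.continuousAt.eventually_lt_const hvy)
      have h2 : ∀ᶠ z in nhdsWithin y (Set.Iio y), z ∈ Set.Ioo x y := Ioo_mem_nhdsLT hxy
      obtain ⟨z, hz1, hz2⟩ := (h1.and h2).exists
      exact key x z hx hz2.1 (by linarith [hz2.2]) hxc (by rw [← hyc]; exact hz2.2.ne) vx hz1
    · exact key x y hx hxy hy hxc hyc vx hvy

end Pool.Agent.Y469.UF
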